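import Pool.Agent.H506R2.LB.Upper

/-!
# The order of the `L₁` Bernstein constant of the hyperbolic cross, in every dimension

`PP S c` is the trigonometric polynomial `∑_{k ∈ S} c k * exp(i (k, x))` on `ℝ^d`, and `nrm F`
is the normalised `L₁` norm `(2π)^{-d} ∫_{[0,2π]^d} ‖F x‖ dx` (file `Pool/Agent/H506R2/LB/TorDefs.lean`);
`mu r α k` is `1` for `k = 0` and `|k|^r exp(i sign(k) α π / 2)` for `k ≠ 0`
(file `Pool/Agent/H506R2/LB/Upper.lean`).
-/

set_option autoImplicit false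

namespace Pool.Agent.Results.MP_969ff5_an.OrderAllDimensions

open Finset Pool.Agent.H506R2.LB

/-- the hyperbolic cross `Γ(N)` in dimension `d` -/
noncomputable def Gam (d N : ℕ) : Finset (Fin d → ℤ) :=
  (Fintype.piFinset fun _ : Fin d => Icc (-(N : ℤ)) (N : ℤ)).filter
    (fun k => ∏ s, max |k s| 1 ≤ (N : ℤ))

/-- `Gam d N` is the whole hyperbolic cross -/
theorem mem_Gam {d N : ℕ} (k : Fin d → ℤ) : k ∈ Gam d N ↔ ∏ s, max |k s| 1 ≤ (N : ℤ) := by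
  unfold Gam
  rw [mem_filter, and_iff_right_iff_imp]
  intro h
  rw [Fintype.mem_piFinset]
  intro s
  have h1 : max |k s| 1 ≤ ∏ t, max |k t| 1 := by
    rw [← Finset.mul_prod_erase _ _ (Finset.mem_univ s)]
    have h2 : ∏ t ∈ (univ : Finset (Fin d)).erase s, (1 : ℤ) ≤
        ∏ t ∈ (univ : Finset (Fin d)).erase s, max |k t| 1 :=
      Finset.prod_le_prod (fun _ _ => zero_le_one) fun t _ => le_max_right _ _
    rw [Finset.prod_const_one] at h2
    exact le_mul_of_one_le_right ((abs_nonneg _).trans (le_max_left _ _)) h2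
  have h3 : |k s| ≤ (N : ℤ) := (le_max_left _ _).trans (h1.trans h)
  rw [mem_Icc]
  exact abs_le.1 h3

/-- the set of the ratios `‖t^{(r)}(·,α)‖₁ / ‖t‖₁` over the nonzero `t ∈ 𝒯(N)` -/
noncomputable def ratios (d N : ℕ) (r : ℝ) (α : Fin d → ℝ) : Set ℝ :=
  {ρ | ∃ c : (Fin d → ℤ) → ℂ, (∃ k ∈ Gam d N, c k ≠ 0) ∧
    ρ = nrm (PP (Gam d N) (fun k => (∏ s, mu r (α s) (k s)) * c k)) / nrm (PP (Gam d N) c)}

/-- `B₁(N; d, r, α)` -/
noncomputable def B1 (d N : ℕ) (r : ℝ) (α : Fin d → ℝ) : ℝ := sSup (ratios d N r α)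

/-- In every dimension `d ≥ 1` and for every `r > 0` the exact order is `B₁(N) ≍ N^r`,
with constants that do not depend on `α`. -/
theorem result (d : ℕ) (hd : 1 ≤ d) (r : ℝ) (hr : 0 < r) :
    ∃ C : ℝ, 0 < C ∧ ∀ (α : Fin d → ℝ) (N : ℕ), 1 ≤ N →
      BddAbove (ratios d N r α) ∧ (N : ℝ) ^ r ≤ B1 d N r α ∧ B1 d N r α ≤ C * (N : ℝ) ^ r := by
  obtain ⟨C, hC, h⟩ := upper d hd r hr
  refine ⟨C, hC, ?_⟩
  intro α N hN
  have hub : ∀ ρ ∈ ratios d N r α, ρ ≤ C * (N : ℝ) ^ r := by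
    rintro ρ ⟨c, hc, rfl⟩
    rw [div_le_iff₀ (nrm_pos _ c hc)]
    exact h N hN (Gam d N) c (fun k hk => (mem_Gam k).1 hk) α
  obtain ⟨s0, -⟩ : ∃ s0 : Fin d, s0 = ⟨0, hd⟩ := ⟨_, rfl⟩
  have hN' : (1 : ℤ) ≤ (N : ℤ) := by exact_mod_cast hN
  have hk : (Pi.single s0 (N : ℤ) : Fin d → ℤ) ∈ Gam d N := by
    rw [mem_Gam, ← Finset.mul_prod_erase _ _ (Finset.mem_univ s0)]
    have h1 : ∏ s ∈ (univ : Finset (Fin d)).erase s0,
        max |(Pi.single s0 (N : ℤ) : Fin d → ℤ) s| 1 = 1 := by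
      refine Finset.prod_eq_one fun s hs => ?_
      rw [Pi.single_eq_of_ne (Finset.ne_of_mem_erase hs)]
      simp
    rw [h1, mul_one, Pi.single_eq_same, abs_of_nonneg (by omega), max_eq_left hN']
  have hne : (N : ℝ) ^ r ∈ ratios d N r α := by
    refine ⟨fun l => if l = Pi.single s0 (N : ℤ) then 1 else 0, ⟨_, hk, by simp⟩, ?_⟩
    rw [← ratio_single (Gam d N) _ hk (fun k => ∏ s, mu r (α s) (k s))]
    rw [norm_prod, ← Finset.mul_prod_erase _ _ (Finset.mem_univ s0)]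
    have h1 : ∏ s ∈ (univ : Finset (Fin d)).erase s0,
        ‖mu r (α s) ((Pi.single s0 (N : ℤ) : Fin d → ℤ) s)‖ = 1 := by
      refine Finset.prod_eq_one fun s hs => ?_
      rw [Pi.single_eq_of_ne (Finset.ne_of_mem_erase hs)]
      unfold mu
      rw [if_pos rfl, norm_one]
    rw [h1, mul_one, Pi.single_eq_same]
    unfold mu
    rw [if_neg (by omega), norm_mul, Complex.norm_real, Real.norm_of_nonneg (by positivity)]
    have h2 : Complex.I * ((((N : ℤ).sign : ℤ) : ℝ) * (α s0 : ℂ) * Real.pi / 2) =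
        (((((N : ℤ).sign : ℤ) : ℝ) * α s0 * Real.pi / 2 : ℝ) : ℂ) * Complex.I := by
      push_cast; ring
    rw [h2, Complex.norm_exp_ofReal_mul_I, mul_one]
    congr 1
    rw [Int.cast_natCast, abs_of_nonneg (Nat.cast_nonneg N)]
  exact ⟨⟨_, hub⟩, le_csSup ⟨_, hub⟩ hne, csSup_le ⟨_, hne⟩ hub⟩

end Pool.Agent.Results.MP_969ff5_an.OrderAllDimensions
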